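import Pool.Agent.H341.FS.Asph

set_option autoImplicit false

/-!
# One relator in a free product of left-orderable groups
-/

namespace Pool.Agent.Results.MP_c98c8e_al.OneRelatorLeftOrderable

open Monoid

universe u

/-- a group is left-orderable if it has a linear order that is invariant under left multiplication -/
def LeftOrderable (G : Type u) [Group G] : Prop :=
  ∃ lo : LinearOrder G, ∀ a b c : G, lo.lt a b → lo.lt (c * a) (c * b)

/-- the natural homomorphism from the free product of the factors `A i`, `i ∈ S`, to the free product of all -/
def factorHom {n : ℕ} (A : Fin n → Type u) [∀ i, Group (A i)] (S : Finset (Fin n)) :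
    CoprodI (fun i : S => A i) →* CoprodI A :=
  CoprodI.lift (fun i => CoprodI.of (i := (i : Fin n)))

/-- the quotient by the normal closure of one element -/
def quotHom {n : ℕ} (A : Fin n → Type u) [∀ i, Group (A i)] (r : CoprodI A) :
    CoprodI A →* CoprodI A ⧸ Subgroup.normalClosure ({r} : Set (CoprodI A)) :=
  QuotientGroup.mk' _

theorem result : ∀ (n : ℕ), 0 < n → ∀ (A : Fin n → Type u) [∀ i, Group (A i)],
    (∀ i, LeftOrderable (A i)) → ∀ r : CoprodI A,
      ∃ S : Finset (Fin n), S.card = n - 1 ∧
        Function.Injective ((quotHom A r).comp (factorHom A S)) := by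
  intro n hn A _ hA r
  exact Pool.Agent.H341.FS.s_nfac n hn A hA r

end Pool.Agent.Results.MP_c98c8e_al.OneRelatorLeftOrderable
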